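import Mathlib
import Pool.Agent.Work.MP_787500_nt.OP.Base
import Pool.Agent.Work.MP_787500_nt.QV.Ind
import Pool.Agent.Work.MP_787500_nt.KI.LevQ

/-!
The ordinary condition at a nonsplit place for `V × V` (phase E5): definitions (fixed, do not change).

`jp : P →* Γ` a local group, `e : G →* Γ` the subgroup of index 2, `c` the complex conjugation. `Vp` is the subspace of
`V = E ^ n` that is stable under the part of `P` in `G`; `Vq` is its transform by the other elements.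
-/

set_option autoImplicit false
set_option linter.unusedSectionVars false

namespace Pool.Agent.Work.MP_787500_nt.OT

open Matrix
open Pool.Agent.Work.MP_787500_nt.GP (A0 IsAct d0 d1 d2 tw cup11 cup21 cup12 cup01 cup02 EvPow IsPow OE MN
  actN actQ bN bil mq lft mq_lft mq_eq mq_add mq_smul Wq Lat pr0 lamN mem_OE bil_add_left bil_add_right bil_sub_left
  bil_sub_right bil_smul_left bil_smul_right pr0_zero_of_norm actQ_mq)
open Pool.Agent.Work.MP_787500_nt.KR (FSys Sm1 Sm2 IsChar Smooth Z1 Z2 B2 LocH LocD Pair LDual LocRep ZV PerpV zV)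
open Pool.Agent.Work.MP_787500_nt.QS (QM Lag pB Zq Two ac2 be2 la2)
open Pool.Agent.Work.MP_787500_nt.QV (QRep LagV beN laN lamE v1 v2 ap rho2 blk T2 J2 isoN v1_add v2_add v1_sub v2_sub)
open Pool.Agent.Work.MP_787500_nt.PA (toE)
open Pool.Agent.Work.MP_787500_nt.OP (Spl ordL mem_ordL KE mem_KE)

variable {E : Type*} [NormedField E] [NormedAlgebra ℚ_[2] E] {n : ℕ}

section one

variable {P : Type*} [Group P]

/-- THE ORDINARY CONDITION, intrinsic form: coboundaries modulo the subspace `W` -/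
def ordW (TP : FSys P) (σ : P → Matrix (Fin n) (Fin n) E) (W : Submodule E (Fin n → E)) :
    Submodule E (P → Fin n → E) where
  carrier := {X | ZV TP σ X ∧ ∃ v, ∀ g, X g - (σ g *ᵥ v - v) ∈ W}
  add_mem' := by
    rintro X Y ⟨h1, v, h2⟩ ⟨h1', v', h2'⟩
    refine ⟨(zV TP σ).add_mem h1 h1', v + v', fun g => ?_⟩
    have e : (X + Y) g - (σ g *ᵥ (v + v') - (v + v')) =
        (X g - (σ g *ᵥ v - v)) + (Y g - (σ g *ᵥ v' - v')) := by
      rw [Pi.add_apply, mulVec_add]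
      abel
    rw [e]
    exact W.add_mem (h2 g) (h2' g)
  zero_mem' := ⟨(zV TP σ).zero_mem, 0, fun g => by
    rw [Pi.zero_apply, mulVec_zero, sub_zero, sub_zero]
    exact W.zero_mem⟩
  smul_mem' := by
    rintro a X ⟨h1, v, h2⟩
    refine ⟨(zV TP σ).smul_mem a h1, a • v, fun g => ?_⟩
    have e : (a • X) g - (σ g *ᵥ (a • v) - a • v) = a • (X g - (σ g *ᵥ v - v)) := by
      rw [Pi.smul_apply, mulVec_smul, smul_sub, smul_sub]
    rw [e]
    exact W.smul_mem a (h2 g)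

theorem mem_ordW {TP : FSys P} {σ : P → Matrix (Fin n) (Fin n) E} {W : Submodule E (Fin n → E)}
    {X : P → Fin n → E} :
    X ∈ ordW TP σ W ↔ ZV TP σ X ∧ ∃ v, ∀ g, X g - (σ g *ᵥ v - v) ∈ W := Iff.rfl

end one

/-- the product of two subspaces -/
def W2 (Vp Vq : Submodule E (Fin n → E)) : Submodule E (Fin (n + n) → E) where
  carrier := {v | v1 v ∈ Vp ∧ v2 v ∈ Vq}
  add_mem' := fun {x y} hx hy => ⟨Vp.add_mem hx.1 hy.1, Vq.add_mem hx.2 hy.2⟩
  zero_mem' := ⟨Vp.zero_mem, Vq.zero_mem⟩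
  smul_mem' := fun a x hx => ⟨Vp.smul_mem a hx.1, Vq.smul_mem a hx.2⟩

theorem mem_W2 {Vp Vq : Submodule E (Fin n → E)} {v : Fin (n + n) → E} :
    v ∈ W2 Vp Vq ↔ v1 v ∈ Vp ∧ v2 v ∈ Vq := Iff.rfl

/-- the residual subspace -/
def redM (T : Submodule (OE E) (Fin n → E)) (l : OE E) (Vp : Submodule E (Fin n → E)) :
    Submodule (OE E) (MN T l 1) where
  carrier := {m | ∃ x ∈ Vp, (m : Wq T) = mq T x}
  add_mem' := by
    rintro m m' ⟨x, hx, h1⟩ ⟨x', hx', h1'⟩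
    refine ⟨x + x', Vp.add_mem hx hx', ?_⟩
    rw [Submodule.coe_add, h1, h1', mq_add]
  zero_mem' := ⟨0, Vp.zero_mem, rfl⟩
  smul_mem' := by
    rintro a m ⟨x, hx, h1⟩
    refine ⟨(a : E) • x, Vp.smul_mem _ hx, ?_⟩
    rw [Submodule.coe_smul, h1, mq_smul]

theorem mem_redM {T : Submodule (OE E) (Fin n → E)} {l : OE E} {Vp : Submodule E (Fin n → E)}
    {m : MN T l 1} : m ∈ redM T l Vp ↔ ∃ x ∈ Vp, (m : Wq T) = mq T x := Iff.rfl

section two

variable {G Γ P : Type*} [Group G] [Group Γ] [Group P]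

/-- the vectors that are fixed by the part of `P` in `G` modulo `Vp` -/
def fixE (e : G →* Γ) (jp : P →* Γ) (ρ : G → Matrix (Fin n) (Fin n) E)
    (Vp : Submodule E (Fin n → E)) : Submodule E (Fin n → E) where
  carrier := {x | ∀ g d, e g = jp d → ρ g *ᵥ x - x ∈ Vp}
  add_mem' := fun {x y} hx hy g d h => by
    have e1 : ρ g *ᵥ (x + y) - (x + y) = (ρ g *ᵥ x - x) + (ρ g *ᵥ y - y) := by
      rw [mulVec_add]
      abel
    rw [e1]
    exact Vp.add_mem (hx g d h) (hy g d h)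
  zero_mem' := fun g d _ => by
    rw [mulVec_zero, sub_zero]
    exact Vp.zero_mem
  smul_mem' := fun a x hx g d h => by
    have e1 : ρ g *ᵥ (a • x) - a • x = a • (ρ g *ᵥ x - x) := by
      rw [mulVec_smul, smul_sub]
    rw [e1]
    exact Vp.smul_mem a (hx g d h)

theorem mem_fixE {e : G →* Γ} {jp : P →* Γ} {ρ : G → Matrix (Fin n) (Fin n) E}
    {Vp : Submodule E (Fin n → E)} {x : Fin n → E} :
    x ∈ fixE e jp ρ Vp ↔ ∀ g d, e g = jp d → ρ g *ᵥ x - x ∈ Vp := Iff.rfl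

/-- An ordinary representation at a nonsplit place. -/
structure OrdP (e : G →* Γ) (c : Γ) (κ : G →* G) (jp : P →* Γ) (b : Matrix (Fin n) (Fin n) E)
    (ρ : G → Matrix (Fin n) (Fin n) E) (Vp Vq : Submodule E (Fin n → E)) : Prop where
  ns : ∃ g d, e g * c = jp d
  pp : ∀ g d, e g = jp d → ∀ x ∈ Vp, ρ g *ᵥ x ∈ Vp
  qq : ∀ g d, e g = jp d → ∀ x ∈ Vq, ρ (κ g) *ᵥ x ∈ Vq
  qp : ∀ g d, e g * c = jp d → ∀ x, x ∈ Vq ↔ ρ g *ᵥ x ∈ Vp
  pq : ∀ g d, e g * c = jp d → ∀ x ∈ Vp, ρ (κ g) *ᵥ x ∈ Vq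
  iso : ∀ x ∈ Vp, ∀ y ∈ Vq, bil b x y = 0
  dp : 2 * Module.finrank E Vp = n
  dq : 2 * Module.finrank E Vq = n

end two

end Pool.Agent.Work.MP_787500_nt.OT
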