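import Mathlib
import Pool.Agent.Work.MP_787500_nt.OT.Defs

/-!
# Module OT/KapE (size M): the fixed vectors of the quotient, Shapiro

Let `R = {v ∈ E ^ (n + n) | rho2 (jp d) v - v ∈ W2 Vp Vq for all d}`. `p` maps `R` onto `KE ρm` with kernel `W2 Vp Vq = ker p`
(`hS.actm`, `hS.ps`: `p` is surjective; `p (ρ v - v) = ρm (p v) - p v`), and `finrank (W2 Vp Vq) = finrank Vp + finrank Vq`.
`v1` maps `R` onto `fixE` with kernel `{ap 0 y | y ∈ Vq}`: let `e g₀ * c = jp d₀`.
* `v1 v ∈ fixE` for `v ∈ R`: `QV.v1_rho`.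
* kernel: if `v = ap 0 y ∈ R`, then the first component at `d₀` is `ρ g₀ y ∈ Vp`, so `y ∈ Vq`; conversely `ap 0 y`, `y ∈ Vq`, is in
  `W2 Vp Vq`, which is stable (OT/Wst `w2_st`, or directly from `hO`), so it is in `R`.
* surjective: for `x ∈ fixE` let `y` be the vector with `ρ g₀ y = x` and `v = ap x y`. `Z d = rho2 (jp d) v - v` is a cocycle,
  `v1 (Z d) ∈ Vp` for `jp d ∈ range e`, and `v1 (Z d₀) = 0`. As in OT/OrdW: `v1 (Z d) ∈ Vp` for all `d`, then
  `v2 (Z d) ∈ Vq` for all `d`.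
So `finrank (KE ρm) + finrank Vp + finrank Vq = finrank R = finrank fixE + finrank Vq`.
-/

set_option autoImplicit false
set_option linter.unusedSectionVars false

namespace Pool.Agent.Work.MP_787500_nt.OT

open Matrix
open Pool.Agent.Work.MP_787500_nt.GP (A0 IsAct d0 d1 d2 tw cup11 cup21 cup12 cup01 cup02 EvPow IsPow OE MN
  actN actQ bN bil mq lft mq_lft mq_eq mq_add mq_smul Wq Lat pr0 lamN mem_OE bil_add_left bil_add_right bil_sub_left
  bil_sub_right bil_smul_left bil_smul_right pr0_zero_of_norm actQ_mq)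
open Pool.Agent.Work.MP_787500_nt.KR (FSys Sm1 Sm2 IsChar Smooth Z1 Z2 B2 LocH LocD Pair LDual LocRep ZV PerpV zV)
open Pool.Agent.Work.MP_787500_nt.QS (QM Lag pB Zq Two ac2 be2 la2)
open Pool.Agent.Work.MP_787500_nt.QP (InvC)
open Pool.Agent.Work.MP_787500_nt.QV (QRep LagV beN laN lamE v1 v2 ap rho2 blk T2 J2 isoN v1_add v2_add v1_sub v2_sub)
open Pool.Agent.Work.MP_787500_nt.PA (toE)
open Pool.Agent.Work.MP_787500_nt.OP (Spl ordL mem_ordL KE mem_KE)

universe v

variable {E : Type v} [NormedField E] [NormedAlgebra ℚ_[2] E] [FiniteDimensional ℚ_[2] E] {n : ℕ}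
  {G Γ P : Type*} [Group G] [Group Γ] [Group P] {e : G →* Γ} {c : Γ} {κ : G →* G} {jp : P →* Γ}
  {TP : FSys P} {b : Matrix (Fin n) (Fin n) E} {ρ : G → Matrix (Fin n) (Fin n) E}
  {Vp Vq : Submodule E (Fin n → E)} {l : OE E} {t : E →ₗ[ℚ_[2]] ℚ_[2]}
  {T : Submodule (OE E) (Fin n → E)}

variable {χ : P → ℤ_[2]} {m : ℕ} {β : Matrix (Fin (n + n)) (Fin (n + n)) E}
  {T₂ : Submodule (OE E) (Fin (n + n) → E)}
  {i s : (Fin m → E) →ₗ[E] (Fin (n + n) → E)} {r p : (Fin (n + n) → E) →ₗ[E] (Fin m → E)}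
  {T' : Submodule (OE E) (Fin m → E)} {b' : Matrix (Fin m) (Fin m) E}
  {ρp ρm : P → Matrix (Fin m) (Fin m) E}

private def v1L : (Fin (n + n) → E) →ₗ[E] (Fin n → E) where
  toFun := v1
  map_add' := v1_add
  map_smul' := fun _ _ => rfl

private theorem w2_finrank :
    Module.finrank E (W2 Vp Vq) = Module.finrank E Vp + Module.finrank E Vq := by
  have f : W2 Vp Vq ≃ₗ[E] (Vp × Vq) :=
    { toFun := fun v => (⟨v1 v.1, v.2.1⟩, ⟨v2 v.1, v.2.2⟩)
      map_add' := fun v w => rfl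
      map_smul' := fun a v => rfl
      invFun := fun z => ⟨ap z.1.1 z.2.1, by
        rw [mem_W2, QV.v1_ap, QV.v2_ap]
        exact ⟨z.1.2, z.2.2⟩⟩
      left_inv := fun v => Subtype.ext (QV.ap_v v.1)
      right_inv := fun z => Prod.ext (Subtype.ext (QV.v1_ap _ _)) (Subtype.ext (QV.v2_ap _ _)) }
  rw [f.finrank_eq, Module.finrank_prod]

/-- the vectors that are fixed modulo `W2` -/
private noncomputable def RR (e : G →* Γ) (c : Γ) (κ : G →* G) (jp : P →* Γ)
    (ρ : G → Matrix (Fin n) (Fin n) E) (Vp Vq : Submodule E (Fin n → E)) :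
    Submodule E (Fin (n + n) → E) where
  carrier := {v | ∀ d, rho2 e c κ ρ (jp d) *ᵥ v - v ∈ W2 Vp Vq}
  add_mem' := fun {x y} hx hy d => by
    have e1 : rho2 e c κ ρ (jp d) *ᵥ (x + y) - (x + y) =
        (rho2 e c κ ρ (jp d) *ᵥ x - x) + (rho2 e c κ ρ (jp d) *ᵥ y - y) := by
      rw [mulVec_add]
      abel
    rw [e1]
    exact (W2 Vp Vq).add_mem (hx d) (hy d)
  zero_mem' := fun d => by
    rw [mulVec_zero, sub_zero]
    exact (W2 Vp Vq).zero_mem
  smul_mem' := fun a x hx d => by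
    have e1 : rho2 e c κ ρ (jp d) *ᵥ (a • x) - a • x =
        a • (rho2 e c κ ρ (jp d) *ᵥ x - x) := by
      rw [mulVec_smul, smul_sub]
    rw [e1]
    exact (W2 Vp Vq).smul_mem a (hx d)

private theorem mem_RR {v : Fin (n + n) → E} : v ∈ RR e c κ jp ρ Vp Vq ↔
    ∀ d, rho2 e c κ ρ (jp d) *ᵥ v - v ∈ W2 Vp Vq := Iff.rfl

private theorem rr_fin (X : Two e c κ) (hO : OrdP e c κ jp b ρ Vp Vq) (h1 : ρ 1 = 1)
    (hm : ∀ g k, ρ (g * k) = ρ g * ρ k) (hle : W2 Vp Vq ≤ RR e c κ jp ρ Vp Vq) :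
    Module.finrank E (RR e c κ jp ρ Vp Vq) =
      Module.finrank E (fixE e jp ρ Vp) + Module.finrank E Vq := by
  obtain ⟨g₀, d₀, h0⟩ := hO.ns
  let B : RR e c κ jp ρ Vp Vq →ₗ[E] (Fin n → E) := v1L.comp (RR e c κ jp ρ Vp Vq).subtype
  have hB : ∀ v, B v = v1 v.1 := fun v => rfl
  have hrange : LinearMap.range B = fixE e jp ρ Vp := by
    apply le_antisymm
    · rintro _ ⟨v, rfl⟩
      intro g d hgd
      have h2 := (mem_W2.1 (mem_RR.1 v.2 d)).1
      rw [← hgd, v1_sub, QV.v1_rho X] at h2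
      exact h2
    · intro x hx
      let y : Fin n → E := ρ g₀⁻¹ *ᵥ x
      have hy : ρ g₀ *ᵥ y = x := by
        show ρ g₀ *ᵥ (ρ g₀⁻¹ *ᵥ x) = x
        rw [Matrix.mulVec_mulVec, ← hm, mul_inv_cancel, h1, Matrix.one_mulVec]
      let Z : P → Fin (n + n) → E := fun d => rho2 e c κ ρ (jp d) *ᵥ ap x y - ap x y
      have hZ : ∀ s t, Z (s * t) = Z s + rho2 e c κ ρ (jp s) *ᵥ Z t := fun s t => by
        show rho2 e c κ ρ (jp (s * t)) *ᵥ ap x y - ap x y =
          (rho2 e c κ ρ (jp s) *ᵥ ap x y - ap x y) +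
            rho2 e c κ ρ (jp s) *ᵥ (rho2 e c κ ρ (jp t) *ᵥ ap x y - ap x y)
        rw [map_mul, QV.rho2_mul X hm, mulVec_sub, Matrix.mulVec_mulVec]
        abel
      have z0 : v1 (Z d₀) = 0 := by
        show v1 (rho2 e c κ ρ (jp d₀) *ᵥ ap x y - ap x y) = 0
        rw [← h0, v1_sub, QV.v1_rhoc X, QV.v2_ap, QV.v1_ap, hy, sub_self]
      have ze : ∀ g d, e g = jp d → v1 (Z d) ∈ Vp := fun g d hgd => by
        have h2 := hx g d hgd
        show v1 (rho2 e c κ ρ (jp d) *ᵥ ap x y - ap x y) ∈ Vp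
        rw [← hgd, v1_sub, QV.v1_rho X, QV.v1_ap]
        exact h2
      have za : ∀ d, v1 (Z d) ∈ Vp := fun d => by
        rcases X.cases (jp d) with ⟨g, hg⟩ | ⟨g, hg⟩
        · exact ze g d hg
        · have h3 : e (g * g₀⁻¹) = jp (d * d₀⁻¹) := by
            rw [map_mul, map_mul, map_inv, map_inv, ← hg, ← h0]
            group
          have h4 : Z d = Z (d * d₀⁻¹) + rho2 e c κ ρ (jp (d * d₀⁻¹)) *ᵥ Z d₀ := by
            rw [← hZ, inv_mul_cancel_right]
          rw [h4, v1_add, ← h3, QV.v1_rho X, z0, mulVec_zero, add_zero]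
          exact ze _ _ h3
      refine ⟨⟨ap x y, fun d => mem_W2.2 ⟨za d, ?_⟩⟩, ?_⟩
      · show v2 (Z d) ∈ Vq
        rw [hO.qp g₀ d₀ h0]
        have h4 := za (d₀ * d)
        rw [hZ, v1_add, z0, zero_add, ← h0, QV.v1_rhoc X] at h4
        exact h4
      · rw [hB]
        exact QV.v1_ap _ _
  have hker : Module.finrank E (LinearMap.ker B) = Module.finrank E Vq := by
    have hz : ∀ v : LinearMap.ker B, v1 v.1.1 = 0 := fun v => by
      have h2 := v.2
      rw [LinearMap.mem_ker, hB] at h2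
      exact h2
    have f : LinearMap.ker B ≃ₗ[E] Vq :=
      { toFun := fun v => ⟨v2 v.1.1, by
          have h2 := (mem_W2.1 (mem_RR.1 v.1.2 d₀)).1
          rw [← h0, v1_sub, QV.v1_rhoc X, hz v, sub_zero] at h2
          exact (hO.qp g₀ d₀ h0 _).2 h2⟩
        map_add' := fun v w => rfl
        map_smul' := fun a v => rfl
        invFun := fun y => ⟨⟨ap 0 y.1, hle (mem_W2.2 (by
            rw [QV.v1_ap, QV.v2_ap]
            exact ⟨Vp.zero_mem, y.2⟩))⟩, by
          rw [LinearMap.mem_ker, hB]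
          exact QV.v1_ap _ _⟩
        left_inv := fun v => by
          apply Subtype.ext
          apply Subtype.ext
          show ap 0 (v2 v.1.1) = v.1.1
          apply QV.ap_ext
          · rw [QV.v1_ap, hz v]
          · rw [QV.v2_ap]
        right_inv := fun y => Subtype.ext (QV.v2_ap _ _) }
    exact f.finrank_eq
  have h2 := LinearMap.finrank_range_add_finrank_ker B
  rw [hrange, hker] at h2
  exact h2.symm

theorem finrank_KE (X : Two e c κ) (hO : OrdP e c κ jp b ρ Vp Vq) (h1 : ρ 1 = 1)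
    (hm : ∀ g k, ρ (g * k) = ρ g * ρ k)
    (hS : Spl TP χ l t T₂ β (fun d => rho2 e c κ ρ (jp d)) i s r p T' b' ρp ρm)
    (hk : LinearMap.ker p = W2 Vp Vq) :
    Module.finrank E (KE ρm) + Module.finrank E Vp = Module.finrank E (fixE e jp ρ Vp) := by
  have hp : ∀ v, v ∈ W2 Vp Vq ↔ p v = 0 := fun v => by
    rw [← hk, LinearMap.mem_ker]
  have hle : W2 Vp Vq ≤ RR e c κ jp ρ Vp Vq := fun v hv d => by
    have h2 : rho2 e c κ ρ (jp d) *ᵥ v ∈ W2 Vp Vq := by
      rw [hp] at hv ⊢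
      have h3 := hS.actm d v
      rw [hv, mulVec_zero] at h3
      exact h3
    exact (W2 Vp Vq).sub_mem h2 hv
  let A : RR e c κ jp ρ Vp Vq →ₗ[E] (Fin m → E) := p.comp (RR e c κ jp ρ Vp Vq).subtype
  have hA : ∀ v, A v = p v.1 := fun v => rfl
  have hrange : LinearMap.range A = KE ρm := by
    apply le_antisymm
    · rintro _ ⟨v, rfl⟩
      intro d
      have h2 := (hp _).1 (mem_RR.1 v.2 d)
      rw [map_sub, sub_eq_zero] at h2
      rw [hA, ← h2]
      have h3 := hS.actm d v.1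
      rw [h2] at h3
      rw [h2]
      exact h3.symm
    · intro w hw
      refine ⟨⟨s w, fun d => (hp _).2 ?_⟩, ?_⟩
      · have h3 := hS.actm d (s w)
        rw [hS.ps, mem_KE.1 hw d] at h3
        rw [map_sub, hS.ps, sub_eq_zero]
        exact h3
      · rw [hA]
        exact hS.ps w
  have hker : Module.finrank E (LinearMap.ker A) =
      Module.finrank E Vp + Module.finrank E Vq := by
    have e1 : LinearMap.ker A = (W2 Vp Vq).comap (RR e c κ jp ρ Vp Vq).subtype := by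
      ext v
      rw [LinearMap.mem_ker, hA, Submodule.mem_comap]
      exact (hp _).symm
    rw [e1, (Submodule.comapSubtypeEquivOfLe hle).finrank_eq, w2_finrank]
  have h2 := LinearMap.finrank_range_add_finrank_ker A
  rw [hrange, hker, rr_fin X hO h1 hm hle] at h2
  omega

end Pool.Agent.Work.MP_787500_nt.OT
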