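import Mathlib
import Pool.Agent.Work.MP_787500_nt.OT.Defs

/-!
# Module OT/OrdW (size S-M): the intrinsic form of the ordinary condition, Shapiro

`ordL_eq`: if `p (X g) = ρm g v - v`, then `X g - (ρ g (s v) - s v)` is in `ker p` (`hS.actm`, `hS.ps`); conversely apply `p`.

`mem_ordW_two`. `→`: the first component of `Y d - (rho2 (jp d) v - v)` for `jp d = e g` (`QV.v1_rho`), `a = v1 v`.
`←`: let `e g₀ * c = jp d₀` (`hO.ns`). Choose `a'` with `ρ g₀ a' = v1 (Y d₀) + a` (`ρ g₀` is invertible), `v = ap a a'` and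
`Z d = Y d - (rho2 (jp d) v - v)`, a cocycle (`rho2` is multiplicative: `QV.rho2_mul`). `v1 (Z d) ∈ Vp` for all `d` with
`jp d ∈ range e` (hypothesis), `v1 (Z d₀) = 0` (`QV.v1_rhoc`). For any `d` with `jp d = e g * c` we have
`d = (d d₀⁻¹) d₀`, `jp (d d₀⁻¹) ∈ range e`, `Z d = Z (d d₀⁻¹) + rho2 (..) (Z d₀)`, so `v1 (Z d) ∈ Vp` for all `d : P`
(`X.cases`). Finally `Z (d₀ d) = Z d₀ + rho2 (jp d₀) (Z d)` gives `ρ g₀ (v2 (Z d)) ∈ Vp`, so `v2 (Z d) ∈ Vq` (`hO.qp`).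
-/

set_option autoImplicit false
set_option linter.unusedSectionVars false

namespace Pool.Agent.Work.MP_787500_nt.OT

open Matrix
open Pool.Agent.Work.MP_787500_nt.GP (A0 IsAct d0 d1 d2 tw cup11 cup21 cup12 cup01 cup02 EvPow IsPow OE MN
  actN actQ bN bil mq lft mq_lft mq_eq mq_add mq_smul Wq Lat pr0 lamN mem_OE bil_add_left bil_add_right bil_sub_left
  bil_sub_right bil_smul_left bil_smul_right pr0_zero_of_norm actQ_mq)
open Pool.Agent.Work.MP_787500_nt.KR (FSys Sm1 Sm2 IsChar Smooth Z1 Z2 B2 LocH LocD Pair LDual LocRep ZV PerpV zV)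
open Pool.Agent.Work.MP_787500_nt.QS (QM Lag pB Zq Two ac2 be2 la2)
open Pool.Agent.Work.MP_787500_nt.QP (InvC)
open Pool.Agent.Work.MP_787500_nt.QV (QRep LagV beN laN lamE v1 v2 ap rho2 blk T2 J2 isoN v1_add v2_add v1_sub v2_sub)
open Pool.Agent.Work.MP_787500_nt.PA (toE)
open Pool.Agent.Work.MP_787500_nt.OP (Spl ordL mem_ordL KE mem_KE)

universe v

variable {E : Type v} [NormedField E] [NormedAlgebra ℚ_[2] E] [FiniteDimensional ℚ_[2] E] {n : ℕ}
  {G Γ P : Type*} [Group G] [Group Γ] [Group P] {e : G →* Γ} {c : Γ} {κ : G →* G} {jp : P →* Γ}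
  {TP : FSys P} {b : Matrix (Fin n) (Fin n) E} {ρ : G → Matrix (Fin n) (Fin n) E}
  {Vp Vq : Submodule E (Fin n → E)} {l : OE E} {t : E →ₗ[ℚ_[2]] ℚ_[2]}
  {T : Submodule (OE E) (Fin n → E)}

section one

variable {χ : P → ℤ_[2]} {m : ℕ} {β : Matrix (Fin n) (Fin n) E} {σ : P → Matrix (Fin n) (Fin n) E}
  {i s : (Fin m → E) →ₗ[E] (Fin n → E)} {r p : (Fin n → E) →ₗ[E] (Fin m → E)}
  {T' : Submodule (OE E) (Fin m → E)} {b' : Matrix (Fin m) (Fin m) E}
  {ρp ρm : P → Matrix (Fin m) (Fin m) E}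

theorem ordL_eq (hS : Spl TP χ l t T β σ i s r p T' b' ρp ρm) :
    ordL TP σ p ρm = ordW TP σ (LinearMap.ker p) := by
  ext X
  rw [mem_ordL, mem_ordW]
  constructor
  · rintro ⟨h1, v, h2⟩
    refine ⟨h1, s v, fun g => ?_⟩
    rw [LinearMap.mem_ker, map_sub, map_sub, hS.actm, hS.ps, h2, sub_self]
  · rintro ⟨h1, v, h2⟩
    refine ⟨h1, p v, fun g => ?_⟩
    have h3 := h2 g
    rw [LinearMap.mem_ker, map_sub, map_sub, hS.actm, sub_eq_zero] at h3
    exact h3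

end one

theorem mem_ordW_two (X : Two e c κ) (hO : OrdP e c κ jp b ρ Vp Vq) (h1 : ρ 1 = 1)
    (hm : ∀ g k, ρ (g * k) = ρ g * ρ k) {Y : P → Fin (n + n) → E}
    (hY : ZV TP (fun d => rho2 e c κ ρ (jp d)) Y) :
    Y ∈ ordW TP (fun d => rho2 e c κ ρ (jp d)) (W2 Vp Vq) ↔
      ∃ a, ∀ g d, e g = jp d → v1 (Y d) - (ρ g *ᵥ a - a) ∈ Vp := by
  rw [mem_ordW]
  constructor
  · rintro ⟨-, v, hv⟩
    refine ⟨v1 v, fun g d h => ?_⟩
    have h1 := (mem_W2.1 (hv d)).1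
    rw [v1_sub, v1_sub, ← h, QV.v1_rho X] at h1
    exact h1
  · rintro ⟨a, ha⟩
    refine ⟨hY, ?_⟩
    obtain ⟨g0, d0, h0⟩ := hO.ns
    have hinv : ρ g0 * ρ g0⁻¹ = 1 := by rw [← hm, mul_inv_cancel, h1]
    set v : Fin (n + n) → E := ap a (ρ g0⁻¹ *ᵥ (v1 (Y d0) + a)) with hv
    have hv1 : v1 v = a := QV.v1_ap _ _
    have hv2 : ρ g0 *ᵥ v2 v = v1 (Y d0) + a := by
      rw [hv, QV.v2_ap, Matrix.mulVec_mulVec, hinv, Matrix.one_mulVec]
    set R : P → Matrix (Fin (n + n)) (Fin (n + n)) E := fun d => rho2 e c κ ρ (jp d) with hR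
    have hRm : ∀ d d', R (d * d') = R d * R d' := fun d d' => by
      simp only [hR]
      rw [map_mul, QV.rho2_mul X hm]
    set Z : P → Fin (n + n) → E := fun d => Y d - (R d *ᵥ v - v) with hZ
    have hZm : ∀ d d', Z (d * d') = Z d + R d *ᵥ Z d' := fun d d' => by
      have h2 := hY.2 d d'
      simp only [hZ]
      rw [h2, hRm, mulVec_sub, mulVec_sub, Matrix.mulVec_mulVec]
      show Y d + R d *ᵥ Y d' - _ = _
      abel
    have hZ0 : v1 (Z d0) = 0 := by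
      simp only [hZ, hR]
      rw [v1_sub, v1_sub, ← h0, QV.v1_rhoc X, hv1, hv2]
      abel
    have hZe : ∀ g d, e g = jp d → v1 (Z d) ∈ Vp := fun g d h => by
      simp only [hZ, hR]
      rw [v1_sub, v1_sub, ← h, QV.v1_rho X, hv1]
      exact ha g d h
    have hZa : ∀ d, v1 (Z d) ∈ Vp := by
      intro d
      rcases X.cases (jp d) with ⟨g, hg⟩ | ⟨g, hg⟩
      · exact hZe g d hg
      · have h3 : e (g * g0⁻¹) = jp (d * d0⁻¹) := by
          rw [map_mul, map_inv, map_mul, map_inv, ← hg, ← h0]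
          group
        have h4 : Z d = Z (d * d0⁻¹) + R (d * d0⁻¹) *ᵥ Z d0 := by
          rw [← hZm, inv_mul_cancel_right]
        rw [h4, v1_add]
        refine Vp.add_mem (hZe _ _ h3) ?_
        simp only [hR]
        rw [← h3, QV.v1_rho X]
        rw [hZ0, mulVec_zero]
        exact Vp.zero_mem
    refine ⟨v, fun d => mem_W2.2 ⟨hZa d, ?_⟩⟩
    have h5 := hZa (d0 * d)
    rw [hZm, v1_add, hZ0, zero_add] at h5
    simp only [hR] at h5
    rw [← h0, QV.v1_rhoc X] at h5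
    exact (hO.qp g0 d0 h0 _).2 h5

end Pool.Agent.Work.MP_787500_nt.OT
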