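import Mathlib
import Pool.Agent.Work.MP_787500_nt.OT.Defs
import Pool.Agent.Work.MP_787500_nt.GP.L13_CardN
import Pool.Agent.Work.MP_787500_nt.GP.L08_MN
import Pool.Agent.Work.MP_787500_nt.GP.F01_Card

/-!
# Module OT/Red (size M): the residual subspaces

`q` the number of elements of the residue field, `M = MN T l 1`, `Mp = redM T l Vp`, `Mq = redM T l Vq`.
* `card_redM`: `Mp` is in bijection with `lamN T l 1 {X : Unit → Fin n → E | X () ∈ Vp}` (`D = Unit`), `GP.card_lamN`
  (GP/L13_CardN.lean; functions on `Unit` are bounded), and this space is linearly equivalent to `Vp`.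
* `red_st`, `red_qp`: `GP.coe_actN`, `GP.actQ_mq`, `hO.pp`, `hO.qp`.
* `perp_red`: `→`: `bN hl 1 x y = pr0 (t (l * bil b x' y')) = 0` (`GP.bN_val`, `hO.iso`). `←`: `bN hl 1` is nondegenerate
  (`GP.bN_nd`, `GP.bN_symm`, GP/L08_MN.lean), so the annihilator of `Mp` has `card M / card Mp` elements (`GP.card_perp`,
  GP/F01_Card.lean, for `AddSubgroup`s), `card M = q ^ n` (`card_redM` for `Vp = ⊤`), so it has `q ^ (n - n / 2) = card Mq`
  elements and contains `Mq`.
* `red_perp`: by `perp_red` the right side says `m' ↦ bN m (C m') = 0` on `Mp`; `C` is additive and injective (`hC.add`,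
  `hC.sq`), `C Mp ≤ Mq` and both have `q ^ (n / 2)` elements, so `C Mp = Mq`; so the right side says `bN m y = 0` for all
  `y ∈ Mq`; by symmetry (`GP.bN_symm`) and the counting argument (with `Vp`, `Vq` exchanged) this is `m ∈ Mp`.
* `red_two`: `n = 2`: `card Mp = q`; take `m₀ ∈ Mp`, `m₀ ≠ 0`; every element of `Mp` is `a • m₀` (`GP.card_span`,
  GP/F03_Pow.lean: the span of a nonzero element killed by the maximal ideal has `q` elements; `l` generates the
  maximal ideal: `GP.mem_maximal`, `hl.lmax`). `bN (a • m₀) (C m₀) = 0` (`hC.alt`) so `C m₀ ∈ Mq` by `perp_red`, and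
  `C (a • m₀) = a • C m₀` (`hC.lin`).
-/

set_option autoImplicit false
set_option linter.unusedSectionVars false

namespace Pool.Agent.Work.MP_787500_nt.OT

open Matrix
open Pool.Agent.Work.MP_787500_nt.GP (A0 IsAct d0 d1 d2 tw cup11 cup21 cup12 cup01 cup02 EvPow IsPow OE MN
  actN actQ bN bil mq lft mq_lft mq_eq mq_add mq_smul Wq Lat pr0 lamN mem_OE bil_add_left bil_add_right bil_sub_left
  bil_sub_right bil_smul_left bil_smul_right pr0_zero_of_norm actQ_mq)
open Pool.Agent.Work.MP_787500_nt.KR (FSys Sm1 Sm2 IsChar Smooth Z1 Z2 B2 LocH LocD Pair LDual LocRep ZV PerpV zV)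
open Pool.Agent.Work.MP_787500_nt.QS (QM Lag pB Zq Two ac2 be2 la2)
open Pool.Agent.Work.MP_787500_nt.QP (InvC)
open Pool.Agent.Work.MP_787500_nt.QV (QRep LagV beN laN lamE v1 v2 ap rho2 blk T2 J2 isoN v1_add v2_add v1_sub v2_sub)
open Pool.Agent.Work.MP_787500_nt.PA (toE)
open Pool.Agent.Work.MP_787500_nt.OP (Spl ordL mem_ordL KE mem_KE)

universe v

variable {E : Type v} [NormedField E] [NormedAlgebra ℚ_[2] E] [FiniteDimensional ℚ_[2] E] {n : ℕ}
  {G Γ P : Type*} [Group G] [Group Γ] [Group P] {e : G →* Γ} {c : Γ} {κ : G →* G} {jp : P →* Γ}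
  {TP : FSys P} {b : Matrix (Fin n) (Fin n) E} {ρ : G → Matrix (Fin n) (Fin n) E}
  {Vp Vq : Submodule E (Fin n → E)} {l : OE E} {t : E →ₗ[ℚ_[2]] ℚ_[2]}
  {T : Submodule (OE E) (Fin n → E)}

variable [IsLocalRing (OE E)]

theorem card_redM (hl : Lat b l t T) (Vp : Submodule E (Fin n → E)) :
    Nat.card (redM T l Vp) =
      Nat.card (IsLocalRing.ResidueField (OE E)) ^ Module.finrank E Vp := by
  let F : (Unit → Fin n → E) ≃ₗ[E] (Fin n → E) := LinearEquiv.funUnique Unit E (Fin n → E)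
  let L : Submodule E (Unit → Fin n → E) := Vp.comap (F : (Unit → Fin n → E) →ₗ[E] (Fin n → E))
  have hL : ∀ X : Unit → Fin n → E, X ∈ L ↔ X () ∈ Vp := fun X => Iff.rfl
  have h1 : Module.finrank E L = Module.finrank E Vp := (LinearEquiv.ofSubmodule' F Vp).finrank_eq
  have h2 := GP.card_lamN (D := Unit) hl 1 L (fun X _ => ⟨‖X ()‖, fun d => le_of_eq rfl⟩)
  rw [one_mul, h1] at h2
  rw [← h2]
  exact Nat.card_congr
    { toFun := fun m => ⟨fun _ => m.1, by
        obtain ⟨x, hx, h⟩ := m.2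
        exact ⟨fun _ => x, hx, fun _ => h⟩⟩
      invFun := fun x => ⟨x.1 (), by
        obtain ⟨X, hX, h⟩ := x.2
        exact ⟨X (), hX, h ()⟩⟩
      left_inv := fun m => rfl
      right_inv := fun x => rfl }

theorem red_st (hO : OrdP e c κ jp b ρ Vp Vq) (hst : ∀ d, ∀ x ∈ T, ρ d *ᵥ x ∈ T) {g : G} {d : P}
    (h : e g = jp d) {m : MN T l 1} (hm : m ∈ redM T l Vp) : actN l 1 ρ hst g m ∈ redM T l Vp := by
  obtain ⟨x, hx, h1⟩ := hm
  refine ⟨ρ g *ᵥ x, hO.pp g d h x hx, ?_⟩
  rw [GP.coe_actN, h1, actQ_mq (hst g)]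

theorem red_qp (hO : OrdP e c κ jp b ρ Vp Vq) (hst : ∀ d, ∀ x ∈ T, ρ d *ᵥ x ∈ T) {g : G} {d : P}
    (h : e g * c = jp d) {m : MN T l 1} (hm : m ∈ redM T l Vq) :
    actN l 1 ρ hst g m ∈ redM T l Vp := by
  obtain ⟨x, hx, h1⟩ := hm
  refine ⟨ρ g *ᵥ x, (hO.qp g d h x).1 hx, ?_⟩
  rw [GP.coe_actN, h1, actQ_mq (hst g)]

private theorem red_top (T : Submodule (OE E) (Fin n → E)) (l : OE E) :
    redM T l (⊤ : Submodule E (Fin n → E)) = ⊤ := by
  rw [eq_top_iff]
  intro m _
  exact ⟨lft (m : Wq T), trivial, (mq_lft _).symm⟩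

private theorem card_MN1 (hl : Lat b l t T) :
    Nat.card (MN T l 1) = Nat.card (IsLocalRing.ResidueField (OE E)) ^ n := by
  have h := card_redM hl (⊤ : Submodule E (Fin n → E))
  rw [finrank_top, Module.finrank_pi, Fintype.card_fin, red_top] at h
  rw [← h]
  exact (Nat.card_congr (Equiv.Set.univ (MN T l 1))).symm

private theorem perp_gen (hl : Lat b l t T) {U W : Submodule E (Fin n → E)}
    (hiso : ∀ x ∈ U, ∀ y ∈ W, bil b x y = 0) (hU : 2 * Module.finrank E U = n)
    (hW : 2 * Module.finrank E W = n) (y : MN T l 1) :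
    y ∈ redM T l W ↔ ∀ x ∈ redM T l U, bN hl 1 x y = 0 := by
  have hle : ∀ y ∈ redM T l W, ∀ x ∈ redM T l U, bN hl 1 x y = 0 := by
    rintro y ⟨y', hy', h1⟩ x ⟨x', hx', h2⟩
    rw [GP.bN_val hl 1 x y h2.symm h1.symm, hiso x' hx' y' hy', mul_zero, map_zero, map_zero]
  refine ⟨hle y, fun hy => ?_⟩
  have hfin : Finite (MN T l 1) := GP.MN_finite hl 1
  have hres : Finite (IsLocalRing.ResidueField (OE E)) := GP.res_finite
  have hq : 0 < Nat.card (IsLocalRing.ResidueField (OE E)) := Nat.card_pos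
  have hK : ∀ a, (∀ a', bN hl 1 a a' = 0) → a ∈ (redM T l U).toAddSubgroup := by
    intro a ha
    rw [GP.bN_nd hl 1 a ha]
    exact zero_mem _
  have h1 := GP.card_perp (bN hl 1) (redM T l U).toAddSubgroup hK
  have h2 : GP.perpL (bN hl 1).flip ⊤ = ⊥ := by
    rw [eq_bot_iff]
    intro a ha
    rw [AddSubgroup.mem_bot]
    exact GP.bN_nd hl 1 a fun a' => ha a' trivial
  rw [h2, card_MN1 hl] at h1
  have h3 : Nat.card ((⊥ : AddSubgroup (MN T l 1))) = 1 := AddSubgroup.card_bot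
  have h4 : Nat.card (redM T l U).toAddSubgroup =
      Nat.card (IsLocalRing.ResidueField (OE E)) ^ Module.finrank E U := card_redM hl U
  have h5 : Nat.card (redM T l W).toAddSubgroup =
      Nat.card (IsLocalRing.ResidueField (OE E)) ^ Module.finrank E W := card_redM hl W
  rw [h3, h4, mul_one] at h1
  have h6 : Nat.card (IsLocalRing.ResidueField (OE E)) ^ n =
      Nat.card (IsLocalRing.ResidueField (OE E)) ^ Module.finrank E U *
        Nat.card (IsLocalRing.ResidueField (OE E)) ^ Module.finrank E W := by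
    rw [← pow_add]
    congr 1
    omega
  rw [h6] at h1
  have h7 := Nat.eq_of_mul_eq_mul_left (pow_pos hq _) h1
  have h8 : (redM T l W).toAddSubgroup ≤ GP.perpL (bN hl 1) (redM T l U).toAddSubgroup :=
    fun z hz x hx => hle z hz x hx
  have h9 := AddSubgroup.eq_of_le_of_card_ge h8 (by rw [h7, h5])
  have h10 : y ∈ GP.perpL (bN hl 1) (redM T l U).toAddSubgroup := fun x hx => hy x hx
  rw [← h9] at h10
  exact h10

theorem perp_red (hl : Lat b l t T) (hO : OrdP e c κ jp b ρ Vp Vq) (y : MN T l 1) :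
    y ∈ redM T l Vq ↔ ∀ x ∈ redM T l Vp, bN hl 1 x y = 0 :=
  perp_gen hl hO.iso hO.dp hO.dq y

theorem red_perp (hl : Lat b l t T) (hO : OrdP e c κ jp b ρ Vp Vq)
    {hst : ∀ d, ∀ x ∈ T, ρ d *ᵥ x ∈ T} {C : MN T l 1 → MN T l 1}
    (hC : InvC κ (OE E) (actN l 1 ρ hst) (bN hl 1) C)
    (hCM : ∀ m ∈ redM T l Vp, C m ∈ redM T l Vq) (m : MN T l 1) :
    m ∈ redM T l Vp ↔ ∀ m' ∈ redM T l Vp, bN hl 1 m (C m') = 0 := by
  have hfin : Finite (MN T l 1) := GP.MN_finite hl 1
  have h1 := perp_gen hl (U := Vq) (W := Vp)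
    (fun x hx y hy => by rw [GP.bil_symm hl.symm]; exact hO.iso y hy x hx) hO.dq hO.dp m
  constructor
  · intro hm m' hm'
    rw [GP.bN_symm]
    exact h1.1 hm _ (hCM m' hm')
  · intro h
    rw [h1]
    let F : redM T l Vp → redM T l Vq := fun m => ⟨C m.1, hCM m.1 m.2⟩
    have hF : Function.Injective F := by
      intro x y hxy
      apply Subtype.ext
      have h2 : C x.1 = C y.1 := congrArg Subtype.val hxy
      rw [← hC.sq x.1, h2, hC.sq]
    have hcard : Nat.card (redM T l Vq) ≤ Nat.card (redM T l Vp) := by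
      rw [card_redM hl, card_redM hl]
      have h3 := hO.dp
      have h4 := hO.dq
      have h5 : Module.finrank E Vq = Module.finrank E Vp := by omega
      rw [h5]
    have hsur := (hF.bijective_of_nat_card_le hcard).2
    intro x hx
    obtain ⟨m', hm'⟩ := hsur ⟨x, hx⟩
    have h2 : C m'.1 = x := congrArg Subtype.val hm'
    rw [GP.bN_symm, ← h2]
    exact h m'.1 m'.2

theorem red_two (hl : Lat b l t T) (hO : OrdP e c κ jp b ρ Vp Vq) (hn : n = 2)
    {hst : ∀ d, ∀ x ∈ T, ρ d *ᵥ x ∈ T} {C : MN T l 1 → MN T l 1}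
    (hC : InvC κ (OE E) (actN l 1 ρ hst) (bN hl 1) C) :
    ∀ m ∈ redM T l Vp, C m ∈ redM T l Vq := by
  have hfin : Finite (MN T l 1) := GP.MN_finite hl 1
  have hres : Finite (IsLocalRing.ResidueField (OE E)) := GP.res_finite
  have hcard : Nat.card (redM T l Vp) = Nat.card (IsLocalRing.ResidueField (OE E)) := by
    rw [card_redM hl]
    have h3 := hO.dp
    have h5 : Module.finrank E Vp = 1 := by omega
    rw [h5, pow_one]
  have h2 : 1 < Nat.card (redM T l Vp) := by
    rw [hcard]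
    exact GP.q_two_le
  obtain ⟨m₀, hm₀⟩ : ∃ m : redM T l Vp, m ≠ 0 := by
    have := (Finite.one_lt_card_iff_nontrivial.1 h2)
    exact exists_ne 0
  have hm₁ : m₀.1 ≠ 0 := fun h => hm₀ (Subtype.ext h)
  have hmax : ∀ a ∈ IsLocalRing.maximalIdeal (OE E), a • m₀.1 = 0 := by
    intro a ha
    rw [GP.mem_maximal] at ha
    have h3 := hl.lmax _ ha
    have hl0 : 0 < ‖(l : E)‖ := norm_pos_iff.2 hl.lne
    have h4 : ‖(a : E) / (l : E)‖ ≤ 1 := by
      rw [norm_div, div_le_one hl0]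
      exact h3
    have h5 : a = (⟨(a : E) / (l : E), h4⟩ : OE E) * l := by
      apply Subtype.ext
      show (a : E) = (a : E) / (l : E) * (l : E)
      rw [div_mul_cancel₀ _ hl.lne]
    have h6 : l • m₀.1 = 0 := by
      apply Subtype.ext
      exact (congrArg (fun z => z • (m₀.1 : Wq T)) (pow_one l).symm).trans (GP.MN.mem m₀.1)
    rw [h5, mul_smul, h6, smul_zero]
  have hspan : Submodule.span (OE E) {m₀.1} = redM T l Vp := by
    have hle : Submodule.span (OE E) {m₀.1} ≤ redM T l Vp := by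
      rw [Submodule.span_singleton_le_iff_mem]
      exact m₀.2
    have h3 : (Submodule.span (OE E) {m₀.1}).toAddSubgroup ≤ (redM T l Vp).toAddSubgroup := hle
    have h4 := AddSubgroup.eq_of_le_of_card_ge h3 (by
      have h5 : Nat.card (Submodule.span (OE E) {m₀.1}).toAddSubgroup =
          Nat.card (IsLocalRing.ResidueField (OE E)) := GP.card_span hm₁ hmax
      have h6 : Nat.card (redM T l Vp).toAddSubgroup =
          Nat.card (IsLocalRing.ResidueField (OE E)) := hcard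
      rw [h5, h6])
    exact Submodule.toAddSubgroup_injective h4
  have hC0 : C m₀.1 ∈ redM T l Vq := by
    rw [perp_red hl hO]
    intro x hx
    rw [← hspan, Submodule.mem_span_singleton] at hx
    obtain ⟨a, rfl⟩ := hx
    exact hC.alt a m₀.1
  intro m hm
  rw [← hspan, Submodule.mem_span_singleton] at hm
  obtain ⟨a, rfl⟩ := hm
  rw [hC.lin]
  exact Submodule.smul_mem _ _ hC0

end Pool.Agent.Work.MP_787500_nt.OT
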