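import Mathlib
import Pool.Agent.Work.MP_787500_nt.OT.Defs

/-!
# Module OT/Wst (size S-M): the subspace `W2 Vp Vq`

`w2_st`: `X.cases (jp d)`, `QV.v1_rho`, `QV.v2_rho`, `QV.v1_rhoc`, `QV.v2_rhoc` with `hO.pp`, `hO.qq`, `hO.qp`, `hO.pq`.
`w2_iso`: `QV.bil_B`, `hO.iso`. `w2_dim`: `W2 Vp Vq` is linearly equivalent to `Vp × Vq` (`v ↦ (v1 v, v2 v)`, inverse `ap`).
`ordP_of`: `Vq = {y | ρ g₀ y ∈ Vp}`. `qp`: `e g * c = jp d`: `g = (g g₀⁻¹) g₀`, `e (g g₀⁻¹) = jp (d d₀⁻¹)` and `Vp` is stable under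
`ρ (g g₀⁻¹)` and its inverse. `pq`: `ρ g₀ (ρ (κ g) x) = ρ (g₀ κ g) x`, `e (g₀ κ g) = e g₀ * c * e g * c = jp (d₀ d)`
(`X.kap`). `qq`: `ρ g₀ ρ (κ g) y = ρ (g₀ κ g g₀⁻¹) (ρ g₀ y)`, `e (g₀ κ g g₀⁻¹) = jp (d₀ d d₀⁻¹)` (`X.cc`). `dq`: `ρ g₀` is
invertible, it maps `Vq` isomorphically to `Vp`.
-/

set_option autoImplicit false
set_option linter.unusedSectionVars false

namespace Pool.Agent.Work.MP_787500_nt.OT

open Matrix
open Pool.Agent.Work.MP_787500_nt.GP (A0 IsAct d0 d1 d2 tw cup11 cup21 cup12 cup01 cup02 EvPow IsPow OE MN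
  actN actQ bN bil mq lft mq_lft mq_eq mq_add mq_smul Wq Lat pr0 lamN mem_OE bil_add_left bil_add_right bil_sub_left
  bil_sub_right bil_smul_left bil_smul_right pr0_zero_of_norm actQ_mq)
open Pool.Agent.Work.MP_787500_nt.KR (FSys Sm1 Sm2 IsChar Smooth Z1 Z2 B2 LocH LocD Pair LDual LocRep ZV PerpV zV)
open Pool.Agent.Work.MP_787500_nt.QS (QM Lag pB Zq Two ac2 be2 la2)
open Pool.Agent.Work.MP_787500_nt.QP (InvC)
open Pool.Agent.Work.MP_787500_nt.QV (QRep LagV beN laN lamE v1 v2 ap rho2 blk T2 J2 isoN v1_add v2_add v1_sub v2_sub)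
open Pool.Agent.Work.MP_787500_nt.PA (toE)
open Pool.Agent.Work.MP_787500_nt.OP (Spl ordL mem_ordL KE mem_KE)

universe v

variable {E : Type v} [NormedField E] [NormedAlgebra ℚ_[2] E] [FiniteDimensional ℚ_[2] E] {n : ℕ}
  {G Γ P : Type*} [Group G] [Group Γ] [Group P] {e : G →* Γ} {c : Γ} {κ : G →* G} {jp : P →* Γ}
  {TP : FSys P} {b : Matrix (Fin n) (Fin n) E} {ρ : G → Matrix (Fin n) (Fin n) E}
  {Vp Vq : Submodule E (Fin n → E)} {l : OE E} {t : E →ₗ[ℚ_[2]] ℚ_[2]}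
  {T : Submodule (OE E) (Fin n → E)}

theorem w2_st (X : Two e c κ) (hO : OrdP e c κ jp b ρ Vp Vq) (d : P) {v : Fin (n + n) → E}
    (hv : v ∈ W2 Vp Vq) : rho2 e c κ ρ (jp d) *ᵥ v ∈ W2 Vp Vq := by
  obtain ⟨h1, h2⟩ := mem_W2.1 hv
  rcases X.cases (jp d) with ⟨g, hg⟩ | ⟨g, hg⟩
  · rw [mem_W2, ← hg, QV.v1_rho X, QV.v2_rho X]
    exact ⟨hO.pp g d hg _ h1, hO.qq g d hg _ h2⟩
  · rw [mem_W2, ← hg, QV.v1_rhoc X, QV.v2_rhoc X]
    exact ⟨(hO.qp g d hg _).1 h2, hO.pq g d hg _ h1⟩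

theorem w2_iso (hO : OrdP e c κ jp b ρ Vp Vq) {v w : Fin (n + n) → E} (hv : v ∈ W2 Vp Vq)
    (hw : w ∈ W2 Vp Vq) : bil (blk 0 b 0 0) v w = 0 := by
  rw [QV.bil_B]
  exact hO.iso _ hv.1 _ hw.2

theorem w2_dim (hO : OrdP e c κ jp b ρ Vp Vq) : 2 * Module.finrank E (W2 Vp Vq) = n + n := by
  let f : W2 Vp Vq ≃ₗ[E] (Vp × Vq) :=
    { toFun := fun v => (⟨v1 v.1, v.2.1⟩, ⟨v2 v.1, v.2.2⟩)
      map_add' := fun _ _ => rfl
      map_smul' := fun _ _ => rfl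
      invFun := fun p => ⟨ap p.1.1 p.2.1, by
        rw [mem_W2, QV.v1_ap, QV.v2_ap]
        exact ⟨p.1.2, p.2.2⟩⟩
      left_inv := fun v => Subtype.ext (QV.ap_v v.1)
      right_inv := fun p => Prod.ext (Subtype.ext (QV.v1_ap _ _)) (Subtype.ext (QV.v2_ap _ _)) }
  rw [f.finrank_eq, Module.finrank_prod, mul_add, hO.dp, hO.dq]

/-- an ordinary representation at a nonsplit place from minimal data -/
theorem ordP_of (X : Two e c κ) (h1 : ρ 1 = 1) (hm : ∀ g k, ρ (g * k) = ρ g * ρ k) {g₀ : G} {d₀ : P}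
    (h0 : e g₀ * c = jp d₀) (hpp : ∀ g d, e g = jp d → ∀ x ∈ Vp, ρ g *ᵥ x ∈ Vp)
    (hiso : ∀ x ∈ Vp, ∀ y, ρ g₀ *ᵥ y ∈ Vp → bil b x y = 0) (hdim : 2 * Module.finrank E Vp = n) :
    OrdP e c κ jp b ρ Vp (Vp.comap (ρ g₀).mulVecLin) := by
  have hc : c⁻¹ = c := inv_eq_of_mul_eq_one_left X.cc
  have hact : ∀ g k (x : Fin n → E), ρ g *ᵥ (ρ k *ᵥ x) = ρ (g * k) *ᵥ x := by
    intro g k x
    rw [mulVec_mulVec, hm]
  have hmem : ∀ y, y ∈ Vp.comap (ρ g₀).mulVecLin ↔ ρ g₀ *ᵥ y ∈ Vp := fun y => Iff.rfl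
  have hiff : ∀ g d, e g = jp d → ∀ x, ρ g *ᵥ x ∈ Vp ↔ x ∈ Vp := by
    intro g d h x
    refine ⟨fun hx => ?_, hpp g d h x⟩
    have h2 := hpp g⁻¹ d⁻¹ (by rw [map_inv, map_inv, h]) _ hx
    rwa [hact, inv_mul_cancel, h1, one_mulVec] at h2
  have hl : ∀ x : Fin n → E, ρ g₀⁻¹ *ᵥ (ρ g₀ *ᵥ x) = x := by
    intro x
    rw [hact, inv_mul_cancel, h1, one_mulVec]
  have hr : ∀ x : Fin n → E, ρ g₀ *ᵥ (ρ g₀⁻¹ *ᵥ x) = x := by
    intro x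
    rw [hact, mul_inv_cancel, h1, one_mulVec]
  refine ⟨⟨g₀, d₀, h0⟩, hpp, ?_, ?_, ?_, ?_, hdim, ?_⟩
  · intro g d h x hx
    rw [hmem] at hx ⊢
    have h2 := hpp (g₀ * κ g * g₀⁻¹) (d₀ * d * d₀⁻¹) (by
      rw [map_mul, map_mul, map_inv, X.kap, map_mul, map_mul, map_inv, ← h0, ← h, _root_.mul_inv_rev, hc]
      group) _ hx
    rw [hact] at h2 ⊢
    rwa [inv_mul_cancel_right] at h2
  · intro g d h x
    rw [hmem]
    have h2 := hiff (g * g₀⁻¹) (d * d₀⁻¹) (by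
      rw [map_mul, map_inv, map_mul, map_inv, ← h0, ← h, _root_.mul_inv_rev, hc]
      have h3 : e g * c * (c * (e g₀)⁻¹) = e g * (c * c) * (e g₀)⁻¹ := by group
      rw [h3, X.cc, mul_one]) (ρ g₀ *ᵥ x)
    rw [hact, inv_mul_cancel_right] at h2
    exact h2.symm
  · intro g d h x hx
    rw [hmem, hact]
    refine hpp _ (d₀ * d) ?_ x hx
    rw [map_mul, X.kap, map_mul, ← h0, ← h]
    group
  · intro x hx y hy
    exact hiso x hx y hy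
  · let f : (Fin n → E) ≃ₗ[E] (Fin n → E) :=
      LinearEquiv.ofLinearMap (ρ g₀).mulVecLin (ρ g₀⁻¹).mulVecLin
        (LinearMap.ext fun x => hr x) (LinearMap.ext fun x => hl x)
    have h2 : Module.finrank E (Vp.comap (ρ g₀).mulVecLin) = Module.finrank E Vp :=
      (LinearEquiv.ofSubmodule' f Vp).finrank_eq
    rw [h2, hdim]

end Pool.Agent.Work.MP_787500_nt.OT
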