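import Mathlib
import Pool.Agent.Work.MP_787500_nt.OP.Dist
import Pool.Agent.Work.MP_787500_nt.OP.LagL
import Pool.Agent.Work.MP_787500_nt.OP.Crd
import Pool.Agent.Work.MP_787500_nt.OR.Fin
import Pool.Agent.Work.MP_787500_nt.OT.OrdW
import Pool.Agent.Work.MP_787500_nt.OT.Wst
import Pool.Agent.Work.MP_787500_nt.OT.KapE
import Pool.Agent.Work.MP_787500_nt.OT.Red

/-!
# Module OT/Main: THE ORDINARY CONDITION AT A NONSPLIT PLACE

* `ordW_fd`, `lagV_ordW`: the ordinary condition has finite dimension and is Lagrangian.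
* `locM_ordW`: its contribution is `dim (V / Vp) ^ G_v`.
-/

set_option autoImplicit false
set_option linter.unusedSectionVars false

namespace Pool.Agent.Work.MP_787500_nt.OT

open Matrix
open Pool.Agent.Work.MP_787500_nt.GP (A0 IsAct d0 d1 d2 tw cup11 cup21 cup12 cup01 cup02 EvPow IsPow OE MN
  actN actQ bN bil mq lft mq_lft mq_eq mq_add mq_smul Wq Lat pr0 lamN mem_OE bil_add_left bil_add_right bil_sub_left
  bil_sub_right bil_smul_left bil_smul_right pr0_zero_of_norm actQ_mq mq_eq_zero)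
open Pool.Agent.Work.MP_787500_nt.KR (FSys Sm1 Sm2 IsChar Smooth Z1 Z2 B2 LocH LocD Pair LDual LocRep ZV PerpV zV
  SDualF sdualF_MN)
open Pool.Agent.Work.MP_787500_nt.QS (QM Lag pB Zq Two ac2 be2 la2)
open Pool.Agent.Work.MP_787500_nt.QP (InvC)
open Pool.Agent.Work.MP_787500_nt.QV (QRep LagV beN laN lamE v1 v2 ap rho2 blk T2 J2 isoN v1_add v2_add v1_sub v2_sub
  v1_ap v2_ap iso_one iso_two iso_eq iso_act)
open Pool.Agent.Work.MP_787500_nt.PA (toE)
open Pool.Agent.Work.MP_787500_nt.KI (LocM YM mem_YM card_YM siso_iso tra map_tra mem_tra card_tra tra_inf z1_tra PlQ)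
open Pool.Agent.Work.MP_787500_nt.OP (Spl ordL mem_ordL KE mem_KE exists_spl dist_even lag_ord)
open Pool.Agent.Work.MP_787500_nt.OR (indW mem_indW M2 mem_M2 locM_ord1)

universe v

section res

variable {E : Type v} [NormedField E] [NormedAlgebra ℚ_[2] E] {n : ℕ} {Γ P : Type*} [Group Γ]
  [Group P] {Sq : FSys Γ} {TP : FSys P} {χq : Γ → ℤ_[2]} {jp : P →* Γ} {l : OE E}
  {t : E →ₗ[ℚ_[2]] ℚ_[2]} {T : Submodule (OE E) (Fin n → E)} {β Sm J : Matrix (Fin n) (Fin n) E}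
  {σ : Γ → Matrix (Fin n) (Fin n) E}

/-- restriction of a quadratic representation -/
theorem qrep_res (h : QRep Sq χq l t T β Sm J σ)
    (hj : ∀ W, Sq.mem W → ∃ W', TP.mem W' ∧ ∀ w ∈ W', jp w ∈ W) :
    QRep TP (fun d => χq (jp d)) l t T β Sm J (fun d => σ (jp d)) where
  lat := h.lat
  rep := by
    refine ⟨?_, fun s u => ?_, ?_, fun s u => ?_, fun d => h.rep.st _, fun d => h.rep.st' _,
      fun ε hε => ?_, fun ε hε => ?_, fun d x y => h.rep.dual _ x y⟩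
    · rw [map_one]
      exact h.rep.one
    · rw [map_mul]
      exact h.rep.mul _ _
    · have h1 := h.rep.one'
      rw [map_one]
      exact h1
    · have h1 := h.rep.mul' (jp s) (jp u)
      rw [map_mul]
      exact h1
    · obtain ⟨W, hW, h1⟩ := h.rep.sm ε hε
      obtain ⟨W', hW', h2⟩ := hj W hW
      exact ⟨W', hW', fun v hv x => h1 _ (h2 v hv) x⟩
    · obtain ⟨W, hW, h1⟩ := h.rep.sm' ε hε
      obtain ⟨W', hW', h2⟩ := hj W hW
      exact ⟨W', hW', fun v hv x => h1 _ (h2 v hv) x⟩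
  jj := h.jj
  jT := h.jT
  alt := h.alt
  bint := h.bint
  qint d := h.qint _

end res

variable {E : Type v} [NormedField E] [NormedAlgebra ℚ_[2] E] [FiniteDimensional ℚ_[2] E] {n : ℕ}
  {G Γ P : Type*} [Group G] [Group Γ] [Group P] {e : G →* Γ} {c : Γ} {κ : G →* G} {jp : P →* Γ}
  {S : FSys G} {Sq : FSys Γ} {TP : FSys P} {χ : G → ℤ_[2]} {χq : Γ → ℤ_[2]}
  {iv : (P → P → A0) → A0} {b : Matrix (Fin n) (Fin n) E} {ρ : G → Matrix (Fin n) (Fin n) E}
  {Vp Vq : Submodule E (Fin n → E)} {l : OE E} {t : E →ₗ[ℚ_[2]] ℚ_[2]}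
  {T : Submodule (OE E) (Fin n → E)} {Sm J : Matrix (Fin (n + n)) (Fin (n + n)) E}

theorem ordW_le {m : ℕ} {σ : P → Matrix (Fin m) (Fin m) E} {W : Submodule E (Fin m → E)} :
    ordW TP σ W ≤ zV TP σ := fun _ h => h.1

/-- the ordinary condition has finite dimension -/
theorem ordW_fd {m : ℕ} {σ : P → Matrix (Fin m) (Fin m) E} {W : Submodule E (Fin m → E)}
    {χp : P → ℤ_[2]} (H : LocD.{v} TP χp iv) (h1 : σ 1 = 1) (hm : ∀ s u, σ (s * u) = σ s * σ u) :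
    FiniteDimensional E (ordW TP σ W) := by
  have h2 := KR.zV_fd H.gens h1 hm
  exact Submodule.finiteDimensional_of_le ordW_le

/-- THE ORDINARY CONDITION IS LAGRANGIAN. -/
theorem lagV_ordW (X : Two e c κ) (H : LocD.{v} TP (fun d => χq (jp d)) iv)
    (hj : ∀ W, Sq.mem W → ∃ W', TP.mem W' ∧ ∀ w ∈ W', jp w ∈ W)
    (h : QRep Sq χq l t (T2 T) (blk 0 b 0 0) Sm J (rho2 e c κ ρ))
    (hO : OrdP e c κ jp b ρ Vp Vq) :
    LagV TP (fun d => χq (jp d)) Sm J (fun d => rho2 e c κ ρ (jp d))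
      (ordW TP (fun d => rho2 e c κ ρ (jp d)) (W2 Vp Vq)) := by
  have h' := qrep_res h hj
  obtain ⟨m, i, s, r, p, ρp, ρm, hS, -, hk⟩ := exists_spl h' (W2 Vp Vq)
    (fun g x hx => w2_st X hO g hx) (fun x hx y hy => w2_iso hO hx hy) (w2_dim hO)
  rw [← hk, ← ordL_eq hS]
  exact lag_ord H h' hS

variable [IsLocalRing (OE E)]

/-- the involution exchanges the two residual subspaces -/
theorem red_swap (hl : Lat b l t T) (hO : OrdP e c κ jp b ρ Vp Vq)
    {hst : ∀ d, ∀ x ∈ T, ρ d *ᵥ x ∈ T} {C : MN T l 1 → MN T l 1}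
    (hC : InvC κ (OE E) (actN l 1 ρ hst) (bN hl 1) C)
    (hCM : ∀ m ∈ redM T l Vp, C m ∈ redM T l Vq) {m : MN T l 1} :
    C m ∈ redM T l Vp ↔ m ∈ redM T l Vq := by
  constructor
  · intro h1
    have h2 := hCM _ h1
    rwa [hC.sq] at h2
  · intro h1
    rw [red_perp hl hO hC hCM]
    intro m' hm'
    have h2 : ∀ x y, bN hl 1 x (C y) = -bN hl 1 y (C x) := by
      intro x y
      have ha : ∀ z, bN hl 1 z (C z) = 0 := fun z => by
        have h3 := hC.alt 1 z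
        rwa [one_smul] at h3
      have h3 := ha (x + y)
      rw [hC.add, map_add, map_add, AddMonoidHom.add_apply, AddMonoidHom.add_apply, ha, ha,
        zero_add, add_zero] at h3
      exact eq_neg_of_add_eq_zero_right h3
    rw [h2, hC.sq, (perp_red hl hO m).1 h1 m' hm', neg_zero]

/-- the level 1 of the product -/
theorem iso_red [Finite (MN T l 1)] (hl : Lat b l t T) (hO : OrdP e c κ jp b ρ Vp Vq)
    {hst : ∀ d, ∀ x ∈ T, ρ d *ᵥ x ∈ T} {C : MN T l 1 → MN T l 1}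
    (hC : InvC κ (OE E) (actN l 1 ρ hst) (bN hl 1) C)
    (hCM : ∀ m ∈ redM T l Vp, C m ∈ redM T l Vq) {m : MN (T2 T) l 1} :
    isoN T l 1 m ∈ M2 hC (redM T l Vp) ↔ m ∈ redM (T2 T) l (W2 Vp Vq) := by
  rw [mem_M2, red_swap hl hO hC hCM]
  constructor
  · rintro ⟨⟨x, hx, h1⟩, y, hy, h2⟩
    refine ⟨ap x y, ⟨?_, ?_⟩, iso_eq ?_ ?_⟩
    · rwa [v1_ap]
    · rwa [v2_ap]
    · rwa [v1_ap]
    · rwa [v2_ap]
  · rintro ⟨w, ⟨h1, h2⟩, h3⟩
    exact ⟨⟨_, h1, iso_one h3⟩, ⟨_, h2, iso_two h3⟩⟩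

section quo

variable {m : ℕ} {β : Matrix (Fin (n + n)) (Fin (n + n)) E} {T₂ : Submodule (OE E) (Fin (n + n) → E)}
  {σ : P → Matrix (Fin (n + n)) (Fin (n + n)) E} {χp : P → ℤ_[2]}
  {i s : (Fin m → E) →ₗ[E] (Fin (n + n) → E)} {r p : (Fin (n + n) → E) →ₗ[E] (Fin m → E)}
  {T' : Submodule (OE E) (Fin m → E)} {b' : Matrix (Fin m) (Fin m) E}
  {ρp ρm : P → Matrix (Fin m) (Fin m) E}

/-- the quotient map at the level 1 -/
noncomputable def pbar (l : OE E) (hp : ∀ x ∈ T₂, p x ∈ T') : MN T₂ l 1 →+ MN T' l 1 where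
  toFun x := ⟨mq T' (p (lft (x : Wq T₂))), by
    have h1 := x.lft_mem
    rw [Submodule.mem_torsionBy_iff, ← mq_smul, mq_eq_zero]
    have h2 := hp _ h1
    rw [map_smul] at h2
    exact h2⟩
  map_zero' := by
    apply Subtype.ext
    show mq T' (p (lft (0 : Wq T₂))) = 0
    rw [mq_eq_zero]
    refine hp _ ?_
    have h1 : mq T₂ (lft (0 : Wq T₂)) = 0 := mq_lft _
    exact mq_eq_zero.1 h1
  map_add' x y := by
    apply Subtype.ext
    show mq T' (p (lft ((x : Wq T₂) + (y : Wq T₂)))) = mq T' (p (lft (x : Wq T₂))) +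
      mq T' (p (lft (y : Wq T₂)))
    rw [← mq_add, ← map_add, mq_eq, ← map_sub]
    refine hp _ ?_
    rw [← mq_eq, mq_lft, mq_add, mq_lft, mq_lft]

theorem pbar_mq (hp : ∀ x ∈ T₂, p x ∈ T') {x : MN T₂ l 1} {v : Fin (n + n) → E}
    (h : (x : Wq T₂) = mq T₂ v) : (pbar l hp x : Wq T') = mq T' (p v) := by
  show mq T' (p (lft (x : Wq T₂))) = mq T' (p v)
  rw [mq_eq, ← map_sub]
  refine hp _ ?_
  rw [← mq_eq, mq_lft, h]

theorem pbar_surj (hS : Spl TP χp l t T₂ β σ i s r p T' b' ρp ρm) :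
    Function.Surjective (pbar (T₂ := T₂) (p := p) l fun x hx => hS.pT hx) := by
  intro y
  have h1 := mq_lft (y : Wq T')
  have h2 := y.lft_mem
  have h3 : (l : E) ^ 1 • s (lft (y : Wq T')) ∈ T₂ := by
    rw [← map_smul]
    exact hS.sT h2
  refine ⟨⟨mq T₂ (s (lft (y : Wq T'))), ?_⟩, ?_⟩
  · rw [Submodule.mem_torsionBy_iff, ← mq_smul, mq_eq_zero]
    exact h3
  · apply Subtype.ext
    rw [pbar_mq (x := ⟨mq T₂ (s (lft (y : Wq T'))), _⟩) (fun x hx => hS.pT hx) rfl, hS.ps, h1]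

theorem pbar_ker (hS : Spl TP χp l t T₂ β σ i s r p T' b' ρp ρm) (x : MN T₂ l 1) :
    pbar (T₂ := T₂) (p := p) l (fun x hx => hS.pT hx) x = 0 ↔ x ∈ redM T₂ l (LinearMap.ker p) := by
  have h1 := mq_lft (x : Wq T₂)
  constructor
  · intro h2
    have h3 := congrArg (fun z : MN T' l 1 => (z : Wq T')) h2
    beta_reduce at h3
    rw [pbar_mq (fun x hx => hS.pT hx) h1.symm] at h3
    have h4 : p (lft (x : Wq T₂)) ∈ T' := mq_eq_zero.1 h3
    refine ⟨i (r (lft (x : Wq T₂))), hS.pi _, ?_⟩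
    rw [← h1, mq_eq, h1]
    have h5 : lft (x : Wq T₂) - i (r (lft (x : Wq T₂))) = s (p (lft (x : Wq T₂))) := by
      have h6 := hS.dec (lft (x : Wq T₂))
      exact sub_eq_of_eq_add' h6.symm
    rw [h5]
    exact hS.sT h4
  · rintro ⟨w, hw, h2⟩
    apply Subtype.ext
    rw [pbar_mq (fun x hx => hS.pT hx) h2]
    have h3 : p w = 0 := hw
    rw [h3]
    rfl

theorem pbar_act (hS : Spl TP χp l t T₂ β σ i s r p T' b' ρp ρm)
    (hst : ∀ d, ∀ x ∈ T₂, σ d *ᵥ x ∈ T₂) (d : P) (x : MN T₂ l 1) :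
    pbar (T₂ := T₂) (p := p) l (fun x hx => hS.pT hx) (actN l 1 σ hst d x) =
      actN l 1 ρm hS.rep.st d (pbar (T₂ := T₂) (p := p) l (fun x hx => hS.pT hx) x) := by
  have h1 := mq_lft (x : Wq T₂)
  apply Subtype.ext
  rw [GP.coe_actN, pbar_mq (fun x hx => hS.pT hx) h1.symm, actQ_mq (hS.rep.st d)]
  have h2 : ((actN l 1 σ hst d x : MN T₂ l 1) : Wq T₂) = mq T₂ (σ d *ᵥ lft (x : Wq T₂)) := by
    rw [GP.coe_actN]
    conv_lhs => rw [← h1]
    exact actQ_mq (hst d) _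
  rw [pbar_mq (fun x hx => hS.pT hx) h2, hS.actm]

end quo

variable [Finite (IsLocalRing.ResidueField (OE E))] [CharP (IsLocalRing.ResidueField (OE E)) 2]
  [Algebra (ZMod 2) (IsLocalRing.ResidueField (OE E))]

/-- THE CONTRIBUTION OF THE ORDINARY CONDITION. -/
theorem locM_ordW (p : PlQ.{v} S Sq χ χq e c κ TP jp iv) (hl : Lat b l t T)
    (hr : LocRep S χ T b ρ (fun g => ρ (κ g)))
    (h : QRep Sq χq l t (T2 T) (blk 0 b 0 0) Sm J (rho2 e c κ ρ)) {C : MN T l 1 → MN T l 1}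
    (hC : InvC κ (OE E) (actN l 1 ρ hr.st) (bN hl 1) C) (hO : OrdP e c κ jp b ρ Vp Vq)
    (hCM : ∀ m ∈ redM T l Vp, C m ∈ redM T l Vq) {δ : ℕ}
    (hδ : δ + Module.finrank E Vp = Module.finrank E (fixE e jp ρ Vp)) :
    LocM TP jp iv e c κ (IsLocalRing.ResidueField (OE E)) (actN l 1 ρ hr.st) (bN hl 1) C
      (YM T l (ordW TP (fun d => rho2 e c κ ρ (jp d)) (W2 Vp Vq))) δ := by
  have hfin : Finite (MN T l 1) := GP.MN_finite hl 1
  have hs : SDualF S χ κ ∅ (OE E) (actN l 1 ρ hr.st) (bN hl 1) :=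
    sdualF_MN hl hr (fun p hp => absurd hp (Set.notMem_empty p)) 1
  have h' := qrep_res h p.js
  obtain ⟨m, i, s, r, q, ρp, ρm, hS, hri, hk⟩ := exists_spl h' (W2 Vp Vq)
    (fun g x hx => w2_st p.two hO g hx) (fun x hx y hy => w2_iso hO hx hy) (w2_dim hO)
  have hact : ∀ (d : P) (x : MN (T2 T) l 1),
      isoN T l 1 (actN l 1 (fun d => rho2 e c κ ρ (jp d)) h'.rep.st d x) =
        ac2 e c κ (actN l 1 ρ hr.st) (jp d) (isoN T l 1 x) := fun d x =>
    iso_act p.two hr.st h.rep.st (jp d) x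
  have hqm := p.qm hs
  -- the reference
  let act2 : IsAct (actN l 1 (fun d => rho2 e c κ ρ (jp d)) h'.rep.st) :=
    (KR.pair_MN h'.lat h'.rep 1).act
  have lin2 : ∀ (g : P) (a : OE E) (x : MN (T2 T) l 1),
      actN l 1 (fun d => rho2 e c κ ρ (jp d)) h'.rep.st g (a • x) =
        a • actN l 1 (fun d => rho2 e c κ ρ (jp d)) h'.rep.st g x := fun g a x => by
    apply Subtype.ext
    rw [GP.coe_actN, Submodule.coe_smul, Submodule.coe_smul, GP.coe_actN, KR.actQ_smul (h'.rep.st g)]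
  let Yo' : Submodule (OE E) (P → MN (T2 T) l 1) := indW TP act2 lin2 (redM (T2 T) l (W2 Vp Vq))
  have hYo' : ∀ x, x ∈ Yo' ↔ Z1 TP (actN l 1 (fun d => rho2 e c κ ρ (jp d)) h'.rep.st) x ∧
      ∃ mm : MN (T2 T) l 1, ∀ g, ∃ z,
        ((x g - (actN l 1 (fun d => rho2 e c κ ρ (jp d)) h'.rep.st g mm - mm) : MN (T2 T) l 1) :
          Wq (T2 T)) = mq (T2 T) (i z) := by
    intro x
    refine and_congr Iff.rfl (exists_congr fun mm => forall_congr' fun g => ?_)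
    rw [mem_redM, ← hri]
    constructor
    · rintro ⟨w, ⟨z, rfl⟩, h1⟩
      exact ⟨z, h1⟩
    · rintro ⟨z, h1⟩
      exact ⟨_, ⟨z, rfl⟩, h1⟩
  have key := dist_even p.loc h' hS Yo' hYo'
  have hkap : Module.finrank E (KE ρm) = δ := by
    have h1 := finrank_KE p.two hO hr.one hr.mul hS hk
    omega
  rw [hkap, ordL_eq hS, hk] at key
  -- transport to `M × M`
  have hYo : ∀ x, x ∈ tra (siso_iso T l) Yo' ↔
      Z1 TP (fun d => ac2 e c κ (actN l 1 ρ hr.st) (jp d)) x ∧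
      ∃ mm, ∀ d, x d - d0 (fun d => ac2 e c κ (actN l 1 ρ hr.st) (jp d)) mm d ∈
        M2 hC (redM T l Vp) := by
    intro x
    obtain ⟨y, rfl⟩ : ∃ y : P → MN (T2 T) l 1, x = fun d => (isoN T l 1).toAddEquiv (y d) :=
      ⟨fun d => (isoN T l 1).symm (x d), funext fun d => ((isoN T l 1).apply_symm_apply _).symm⟩
    rw [map_tra, z1_tra (f := (isoN T l 1).toAddEquiv)
      (ρ := actN l 1 (fun d => rho2 e c κ ρ (jp d)) h'.rep.st) hact]
    refine and_congr Iff.rfl ⟨?_, ?_⟩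
    · rintro ⟨mm, h1⟩
      refine ⟨isoN T l 1 mm, fun d => ?_⟩
      have h2 := (iso_red hl hO hC hCM).2 (h1 d)
      have e1 : isoN T l 1 (y d - d0 (actN l 1 (fun d => rho2 e c κ ρ (jp d)) h'.rep.st) mm d) =
          isoN T l 1 (y d) - d0 (fun d => ac2 e c κ (actN l 1 ρ hr.st) (jp d))
            (isoN T l 1 mm) d := by
        rw [map_sub]
        simp only [d0, map_sub, hact]
      rw [e1] at h2
      exact h2
    · rintro ⟨mm', h1⟩
      obtain ⟨mm, rfl⟩ : ∃ mm, mm' = isoN T l 1 mm :=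
        ⟨(isoN T l 1).symm mm', ((isoN T l 1).apply_symm_apply _).symm⟩
      refine ⟨mm, fun d => (iso_red hl hO hC hCM).1 ?_⟩
      have e1 : isoN T l 1 (y d - d0 (actN l 1 (fun d => rho2 e c κ ρ (jp d)) h'.rep.st) mm d) =
          isoN T l 1 (y d) - d0 (fun d => ac2 e c κ (actN l 1 ρ hr.st) (jp d))
            (isoN T l 1 mm) d := by
        rw [map_sub]
        simp only [d0, map_sub, hact]
      rw [e1]
      exact h1 d
  have hY : ∀ x ∈ YM T l (ordW TP (fun d => rho2 e c κ ρ (jp d)) (W2 Vp Vq)),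
      Z1 TP (fun d => ac2 e c κ (actN l 1 ρ hr.st) (jp d)) x := by
    intro x hx
    obtain ⟨y, rfl⟩ : ∃ y : P → MN (T2 T) l 1, x = fun d => isoN T l 1 (y d) :=
      ⟨fun d => (isoN T l 1).symm (x d), funext fun d => ((isoN T l 1).apply_symm_apply _).symm⟩
    obtain ⟨X, hX, h1⟩ := mem_YM.1 hx
    have h2 := KR.zv_level h'.lat h'.rep 1 hX.1 h1
    exact (z1_tra (f := (isoN T l 1).toAddEquiv) hact).2 h2
  let pb := pbar (T₂ := T2 T) (p := q) l (fun x hx => hS.pT hx)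
  let Q : MN T l 1 × MN T l 1 →+ MN (OP.stdL E m) l 1 :=
    pb.comp (isoN T l 1).symm.toAddEquiv.toAddMonoidHom
  have hQ : ∀ x, Q (isoN T l 1 x) = pb x := fun x => by
    show pb ((isoN T l 1).symm (isoN T l 1 x)) = pb x
    rw [(isoN T l 1).symm_apply_apply]
  have hsurj : ∀ v : MN T l 1 × MN T l 1, ∃ x, v = isoN T l 1 x := fun v =>
    ⟨(isoN T l 1).symm v, ((isoN T l 1).apply_symm_apply v).symm⟩
  refine locM_ord1 p hs hC (Mp := redM T l Vp) (fun d g hg m hm => red_st hO hr.st hg hm)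
    (fun d g hg m hm => red_qp hO hr.st hg (hCM m hm)) (red_perp hl hO hC hCM)
    (Yo := tra (siso_iso T l) Yo') hY hYo (ω := actN l 1 ρm hS.rep.st) Q (fun y => ?_) (fun v => ?_)
    (fun d v => ?_) ?_
  · obtain ⟨x, hx⟩ := pbar_surj hS y
    exact ⟨isoN T l 1 x, (hQ x).trans hx⟩
  · obtain ⟨x, rfl⟩ := hsurj v
    rw [hQ, iso_red hl hO hC hCM, ← hk]
    exact pbar_ker hS x
  · obtain ⟨x, rfl⟩ := hsurj v
    rw [← hact, hQ, hQ]
    exact pbar_act hS h'.rep.st d x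
  · have e1 : Nat.card (YM T l (ordW TP (fun d => rho2 e c κ ρ (jp d)) (W2 Vp Vq))) =
        Nat.card (lamN (T2 T) l 1 (ordW TP (fun d => rho2 e c κ ρ (jp d)) (W2 Vp Vq))) := card_YM
    have e2 : Nat.card ↥(YM T l (ordW TP (fun d => rho2 e c κ ρ (jp d)) (W2 Vp Vq)) ⊓
        tra (siso_iso T l) Yo') = Nat.card ↥(lamN (T2 T) l 1
          (ordW TP (fun d => rho2 e c κ ρ (jp d)) (W2 Vp Vq)) ⊓ Yo') := by
      rw [YM, ← tra_inf]
      exact card_tra _ _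
    rw [e1, e2]
    exact key

end Pool.Agent.Work.MP_787500_nt.OT
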